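import Mathlib
import Pool.Agent.V1123.VirtAb

set_option autoImplicit false

namespace Pool.Agent.Results.MP_d54b08_al.TdcIndependent

open Filter Topology Pool.Agent.V1123.BallGrowth

universe u

/-- The degree of twisted commutativity of the endomorphism `φ` with respect to `X`. -/
noncomputable def tdc {G : Type u} [Group G] (φ : G →* G) (X : Finset G) : ℝ :=
  limsup (fun n : ℕ =>
    (({p : G × G | p.1 ∈ ball X n ∧ p.2 ∈ ball X n ∧ p.1 * p.2 = p.2 * φ p.1}).ncard : ℝ) /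
      ((ball X n).ncard : ℝ) ^ 2) atTop

section Density

variable {G : Type u} [Group G] (X : Finset G) (hX : Subgroup.closure (X : Set G) = ⊤)
  (hr : ∀ r : ℕ, Tendsto (fun n : ℕ => (β X (n - r) : ℝ) / β X n) atTop (𝓝 1))
  (hr' : ∀ r : ℕ, Tendsto (fun n : ℕ => (β X (n + r) : ℝ) / β X n) atTop (𝓝 1))

/-- The part of a ball in a coset. -/
def cb (V : Subgroup G) (q : G ⧸ V) (n : ℕ) : Set G := {g | g ∈ ball X n ∧ QuotientGroup.mk g = q}

theorem cb_finite (V : Subgroup G) (q : G ⧸ V) (n : ℕ) : (cb X V q n).Finite :=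
  (ball_finite X n).subset fun _ h => h.1

theorem sum_cb (V : Subgroup G) [Fintype (G ⧸ V)] (n : ℕ) :
    ∑ q : G ⧸ V, (cb X V q n).ncard = β X n := by
  classical
  have h1 : ∀ q, (cb X V q n).ncard =
      (((ball_finite X n).toFinset).filter (fun g => QuotientGroup.mk g = q)).card := by
    intro q
    rw [← Set.ncard_coe_finset]
    congr 1
    ext g
    simp [cb]
  simp only [h1]
  unfold β
  rw [Set.ncard_eq_toFinset_card _ (ball_finite X n)]
  exact (Finset.card_eq_sum_card_fiberwise (fun x _ => Finset.mem_univ _)).symm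

include hX in
theorem cb_le (V : Subgroup G) [V.Normal] [Finite (G ⧸ V)] :
    ∃ r, ∀ (q q' : G ⧸ V) (n : ℕ), (cb X V q n).ncard ≤ (cb X V q' (n + r)).ncard := by
  obtain ⟨r, hr⟩ : ∃ r, ∀ i : (G ⧸ V) × (G ⧸ V), ∃ h ∈ ball X r,
      (QuotientGroup.mk h : G ⧸ V) * i.1 = i.2 := by
    refine uniform (fun (i : (G ⧸ V) × (G ⧸ V)) r => ∃ h ∈ ball X r,
      (QuotientGroup.mk h : G ⧸ V) * i.1 = i.2) ?_ ?_
    · rintro i a b hab ⟨h, hh, hh'⟩
      exact ⟨h, ball_mono X hab hh, hh'⟩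
    · rintro ⟨q, q'⟩
      obtain ⟨h, hh⟩ := QuotientGroup.mk_surjective (q' * q⁻¹)
      obtain ⟨r, hr⟩ := exists_mem_ball X hX h
      exact ⟨r, h, hr, by rw [hh]; simp⟩
  refine ⟨r, fun q q' n => ?_⟩
  obtain ⟨h, hh, hh'⟩ := hr (q, q')
  have hsub : (fun g => h * g) '' (cb X V q n) ⊆ cb X V q' (n + r) := by
    rintro _ ⟨g, ⟨hg, hgq⟩, rfl⟩
    refine ⟨?_, ?_⟩
    · have := mul_mem_ball X _ _ _ _ hh hg
      rwa [add_comm] at this
    · rw [QuotientGroup.mk_mul, hgq]; exact hh'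
  have := Set.ncard_le_ncard hsub (cb_finite X V q' _)
  rwa [mul_set_ncard] at this

include hX hr hr' in
/-- Equidistribution among cosets. -/
theorem coset_density (V : Subgroup G) [V.Normal] [Fintype (G ⧸ V)] (q : G ⧸ V) :
    Tendsto (fun n : ℕ => ((cb X V q n).ncard : ℝ) / β X n) atTop
      (𝓝 (1 / (Fintype.card (G ⧸ V) : ℝ))) := by
  obtain ⟨r, hcb⟩ := cb_le X hX V
  set m : ℝ := (Fintype.card (G ⧸ V) : ℝ) with hm
  have hm0 : 0 < m := by rw [hm]; exact_mod_cast Fintype.card_pos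
  have hup : ∀ n, m * (cb X V q n).ncard ≤ β X (n + r) := by
    intro n
    have h1 : ∑ q' : G ⧸ V, (cb X V q n).ncard ≤ ∑ q' : G ⧸ V, (cb X V q' (n + r)).ncard :=
      Finset.sum_le_sum fun q' _ => hcb q q' n
    rw [sum_cb, Finset.sum_const, smul_eq_mul, Finset.card_univ] at h1
    rw [hm]; exact_mod_cast h1
  have hlo : ∀ n, r ≤ n → (β X (n - r) : ℝ) ≤ m * (cb X V q n).ncard := by
    intro n hn
    have h1 : ∑ q' : G ⧸ V, (cb X V q' (n - r)).ncard ≤ ∑ q' : G ⧸ V, (cb X V q n).ncard := by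
      refine Finset.sum_le_sum fun q' _ => ?_
      have := hcb q' q (n - r)
      rwa [Nat.sub_add_cancel hn] at this
    rw [sum_cb, Finset.sum_const, smul_eq_mul, Finset.card_univ] at h1
    rw [hm]; exact_mod_cast h1
  have hb : ∀ n, (0 : ℝ) < β X n := fun n => by exact_mod_cast β_pos X n
  have h1 : Tendsto (fun n : ℕ => (1 / m) * ((β X (n - r) : ℝ) / β X n)) atTop (𝓝 (1 / m)) := by
    have := (hr r).const_mul (1 / m)
    rwa [mul_one] at this
  have h2 : Tendsto (fun n : ℕ => (1 / m) * ((β X (n + r) : ℝ) / β X n)) atTop (𝓝 (1 / m)) := by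
    have := (hr' r).const_mul (1 / m)
    rwa [mul_one] at this
  refine tendsto_of_tendsto_of_tendsto_of_le_of_le' h1 h2 ?_ ?_
  · filter_upwards [eventually_ge_atTop r] with n hn
    rw [← mul_div_assoc]
    apply div_le_div_of_nonneg_right _ (hb n).le
    rw [div_mul_eq_mul_div, one_mul, div_le_iff₀ hm0, mul_comm]
    exact hlo n hn
  · filter_upwards with n
    rw [← mul_div_assoc]
    apply div_le_div_of_nonneg_right _ (hb n).le
    rw [div_mul_eq_mul_div, one_mul, le_div_iff₀ hm0, mul_comm]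
    exact hup n

/-- The part of a set of pairs in the square of a ball. -/
def sqb (E : Set (G × G)) (n : ℕ) : Set (G × G) := {p | p ∈ E ∧ p.1 ∈ ball X n ∧ p.2 ∈ ball X n}

theorem sqb_finite (E : Set (G × G)) (n : ℕ) : (sqb X E n).Finite :=
  ((ball_finite X n).prod (ball_finite X n)).subset fun _ h => ⟨h.2.1, h.2.2⟩

include hX hr' in
/-- Sets with infinitely many disjoint translates are negligible. -/
theorem negligible (E : Set (G × G)) (u : G × G)
    (hu : ∀ i j : ℕ, ∀ p ∈ E, ∀ p' ∈ E, u ^ i * p = u ^ j * p' → i = j) :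
    Tendsto (fun n : ℕ => ((sqb X E n).ncard : ℝ) / (β X n : ℝ) ^ 2) atTop (𝓝 0) := by
  classical
  obtain ⟨r1, hr1⟩ := exists_mem_ball X hX u.1
  obtain ⟨r2, hr2⟩ := exists_mem_ball X hX u.2
  have hpow : ∀ (g : G) (r a : ℕ), g ∈ ball X r → g ^ a ∈ ball X (r * a) := by
    intro g r a hg
    induction a with
    | zero => rw [pow_zero]; exact one_mem_ball X _
    | succ a ih =>
      rw [pow_succ, mul_add, mul_one]
      exact mul_mem_ball X _ _ _ _ ih hg
  have key : ∀ M n : ℕ, M * (sqb X E n).ncard ≤ (β X (n + (r1 + r2) * M)) ^ 2 := by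
    intro M n
    have hmaps : (fun x : ℕ × (G × G) => u ^ x.1 * x.2) ''
        ((Finset.range M : Set ℕ) ×ˢ (sqb X E n)) ⊆
        (ball X (n + (r1 + r2) * M)) ×ˢ (ball X (n + (r1 + r2) * M)) := by
      rintro _ ⟨⟨i, p⟩, ⟨hi, hp, hp1, hp2⟩, rfl⟩
      have hi' : i < M := by simpa using hi
      simp only at hp1 hp2 ⊢
      constructor
      · simp only [Prod.fst_mul, Prod.pow_fst]
        refine ball_mono X ?_ (mul_mem_ball X _ _ _ _ (hpow _ _ i hr1) hp1)
        nlinarith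
      · simp only [Prod.snd_mul, Prod.pow_snd]
        refine ball_mono X ?_ (mul_mem_ball X _ _ _ _ (hpow _ _ i hr2) hp2)
        nlinarith
    have hinj : Set.InjOn (fun x : ℕ × (G × G) => u ^ x.1 * x.2)
        ((Finset.range M : Set ℕ) ×ˢ (sqb X E n)) := by
      rintro ⟨i, p⟩ ⟨_, hp, _⟩ ⟨j, p'⟩ ⟨_, hp', _⟩ h
      simp only at h hp hp'
      have hij := hu i j p hp p' hp' h
      subst hij
      rw [mul_right_inj] at h
      rw [h]
    have hfin : ((ball X (n + (r1 + r2) * M)) ×ˢ (ball X (n + (r1 + r2) * M))).Finite :=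
      (ball_finite X _).prod (ball_finite X _)
    have h1 := Set.ncard_le_ncard hmaps hfin
    rw [hinj.ncard_image, Set.ncard_prod, Set.ncard_prod, Set.ncard_coe_finset,
      Finset.card_range] at h1
    calc M * (sqb X E n).ncard ≤ _ := h1
      _ = _ := by rw [pow_two]; rfl
  rw [Metric.tendsto_atTop]
  intro ε hε
  obtain ⟨M, hM⟩ := exists_nat_gt (4 / ε)
  have hM0 : (0 : ℝ) < M := lt_trans (by positivity) hM
  have hev := (hr' ((r1 + r2) * M)).eventually_lt_const (show (1 : ℝ) < 2 by norm_num)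
  rw [eventually_atTop] at hev
  obtain ⟨N, hN⟩ := hev
  refine ⟨N, fun n hn => ?_⟩
  have hb : (0 : ℝ) < β X n := by exact_mod_cast β_pos X n
  have h1 := hN n hn
  rw [div_lt_iff₀ hb] at h1
  have h2 : (M : ℝ) * (sqb X E n).ncard ≤ (β X (n + (r1 + r2) * M) : ℝ) ^ 2 := by
    exact_mod_cast key M n
  have h3 : (β X (n + (r1 + r2) * M) : ℝ) ^ 2 ≤ (2 * β X n) ^ 2 := by
    apply pow_le_pow_left₀ (by positivity) h1.le
  rw [Real.dist_eq, sub_zero, abs_of_nonneg (by positivity), div_lt_iff₀ (by positivity)]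
  have h4 : 4 < ε * M := by
    rw [div_lt_iff₀ hε] at hM; linarith
  have h5 : (M : ℝ) * (sqb X E n).ncard ≤ 4 * (β X n : ℝ) ^ 2 := by nlinarith
  have h6 : (M : ℝ) * (sqb X E n).ncard < M * (ε * (β X n : ℝ) ^ 2) := by
    calc (M : ℝ) * (sqb X E n).ncard ≤ 4 * (β X n : ℝ) ^ 2 := h5
      _ < (ε * M) * (β X n : ℝ) ^ 2 := by
        apply mul_lt_mul_of_pos_right h4 (by positivity)
      _ = _ := by ring
  exact lt_of_mul_lt_mul_left h6 hM0.le

end Density

section Main

variable {G : Type u} [Group G]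

/-- The pairs of cosets on which the relation holds identically. -/
def Full (V : Subgroup G) (φ : G →* G) (q : (G ⧸ V) × (G ⧸ V)) : Prop :=
  ∀ x y : G, QuotientGroup.mk x = q.1 → QuotientGroup.mk y = q.2 → x * y = y * φ x

/-- The solutions in a pair of cosets. -/
def EE (V : Subgroup G) (φ : G →* G) (q : (G ⧸ V) × (G ⧸ V)) : Set (G × G) :=
  {p | QuotientGroup.mk p.1 = q.1 ∧ QuotientGroup.mk p.2 = q.2 ∧ p.1 * p.2 = p.2 * φ p.1}

/-- If the relation does not hold identically, then the solutions have infinitely many disjoint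
translates. -/
theorem not_full (V : Subgroup G) [hVn : V.Normal] (hc : ∀ a ∈ V, ∀ b ∈ V, a * b = b * a)
    (ht : ∀ a ∈ V, ∀ r : ℕ, 0 < r → a ^ r = 1 → a = 1) (φ : G →* G) (hφ : ∀ a ∈ V, φ a ∈ V)
    (q : (G ⧸ V) × (G ⧸ V)) (hq : ¬ Full V φ q) :
    ∃ u : G × G, ∀ i j : ℕ, ∀ p ∈ EE V φ q, ∀ p' ∈ EE V φ q, u ^ i * p = u ^ j * p' → i = j := by
  by_cases hne : (EE V φ q).Nonempty
  · obtain ⟨⟨x0, y0⟩, hx0, hy0, h0⟩ := hne
    simp only at hx0 hy0 h0
    unfold Full at hq
    push Not at hq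
    obtain ⟨x1, y1, hx1, hy1, h1⟩ := hq
    have hVc : ∀ a b : V, a * b = b * a := by
      intro a b; ext; exact hc a a.2 b b.2
    let _ : CommGroup V := { (inferInstance : Group V) with mul_comm := hVc }
    let φV : V →* V := (φ.comp V.subtype).codRestrict V (fun a => hφ a a.2)
    let cx : V →* V := (MulAut.conjNormal x0 : MulAut V).toMonoidHom
    let cy : V →* V := (MulAut.conjNormal y0 : MulAut V).toMonoidHom
    let T : V × V →* V :=
      (MonoidHom.fst V V) * (cx.comp (MonoidHom.snd V V)) *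
        (cy.comp (φV.comp (MonoidHom.fst V V)))⁻¹ * (MonoidHom.snd V V)⁻¹
    have hT : ∀ a b : V, T (a, b) = a * cx b * (cy (φV a))⁻¹ * b⁻¹ := fun a b => rfl
    have hT1 : ∀ a b : V, T (a, b) = 1 ↔
        ((a : G) * x0) * ((b : G) * y0) = ((b : G) * y0) * φ ((a : G) * x0) := by
      intro a b
      rw [hT, mul_inv_eq_one, mul_inv_eq_iff_eq_mul]
      have e1 : ((cx b : V) : G) = x0 * b * x0⁻¹ := rfl
      have e2 : ((cy (φV a) : V) : G) = y0 * φ a * y0⁻¹ := rfl
      constructor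
      · intro h
        have h2 := congrArg Subtype.val h
        rw [Subgroup.coe_mul, Subgroup.coe_mul, e1, e2] at h2
        calc ((a : G) * x0) * ((b : G) * y0) = (a * (x0 * b * x0⁻¹)) * (x0 * y0) := by group
          _ = (b * (y0 * φ a * y0⁻¹)) * (y0 * φ x0) := by rw [h2, h0]
          _ = _ := by rw [map_mul]; group
      · intro h
        ext
        rw [Subgroup.coe_mul, Subgroup.coe_mul, e1, e2]
        have h3 : (a * (x0 * b * x0⁻¹)) * (x0 * y0) = (b * (y0 * φ a * y0⁻¹)) * (x0 * y0) := by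
          calc (a * (x0 * b * x0⁻¹)) * (x0 * y0) = ((a : G) * x0) * ((b : G) * y0) := by group
            _ = ((b : G) * y0) * φ ((a : G) * x0) := h
            _ = (b * (y0 * φ a * y0⁻¹)) * (y0 * φ x0) := by rw [map_mul]; group
            _ = _ := by rw [h0]
        exact mul_right_cancel h3
    have hmem : ∀ x z : G, (QuotientGroup.mk x : G ⧸ V) = QuotientGroup.mk z → x * z⁻¹ ∈ V := by
      intro x z h
      have h' := h.symm
      rw [QuotientGroup.eq] at h'
      exact hVn.mem_comm h'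
    let a : V := ⟨x1 * x0⁻¹, hmem _ _ (hx1.trans hx0.symm)⟩
    let b : V := ⟨y1 * y0⁻¹, hmem _ _ (hy1.trans hy0.symm)⟩
    have hTne : T (a, b) ≠ 1 := by
      rw [Ne, hT1]
      intro h
      apply h1
      simpa [a, b] using h
    have hTinj : ∀ i j : ℕ, i ≤ j → T (a, b) ^ i = T (a, b) ^ j → i = j := by
      intro i j hij h
      by_contra hne'
      have hlt : 0 < j - i := by omega
      have h2 : T (a, b) ^ (j - i) = 1 := by
        rw [pow_sub _ hij, h, mul_inv_cancel]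
      apply hTne
      have h3 := congrArg Subtype.val h2
      rw [Subgroup.coe_pow] at h3
      ext
      exact ht _ (T (a, b)).2 _ hlt h3
    refine ⟨((a : G), (b : G)), ?_⟩
    rintro i j ⟨x, y⟩ ⟨hx, hy, hxy⟩ ⟨x', y'⟩ ⟨hx', hy', hxy'⟩ h
    simp only at hx hy hxy hx' hy' hxy'
    let c : V := ⟨x * x0⁻¹, hmem _ _ (hx.trans hx0.symm)⟩
    let d : V := ⟨y * y0⁻¹, hmem _ _ (hy.trans hy0.symm)⟩
    let c' : V := ⟨x' * x0⁻¹, hmem _ _ (hx'.trans hx0.symm)⟩
    let d' : V := ⟨y' * y0⁻¹, hmem _ _ (hy'.trans hy0.symm)⟩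
    have hTc : T (c, d) = 1 := by
      rw [hT1]; simpa [c, d] using hxy
    have hTc' : T (c', d') = 1 := by
      rw [hT1]; simpa [c', d'] using hxy'
    have h1' := congrArg Prod.fst h
    have h2' := congrArg Prod.snd h
    simp only [Prod.fst_mul, Prod.snd_mul, Prod.pow_fst, Prod.pow_snd] at h1' h2'
    have e1 : a ^ i * c = a ^ j * c' := by
      ext
      simp only [Subgroup.coe_mul, Subgroup.coe_pow, c, c']
      rw [← mul_assoc, h1', mul_assoc]
    have e2 : b ^ i * d = b ^ j * d' := by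
      ext
      simp only [Subgroup.coe_mul, Subgroup.coe_pow, d, d']
      rw [← mul_assoc, h2', mul_assoc]
    have h3 : T (a, b) ^ i = T (a, b) ^ j := by
      have e3 : T ((a, b) ^ i * (c, d)) = T ((a, b) ^ j * (c', d')) := by
        congr 1
        ext1
        · exact e1
        · exact e2
      rwa [map_mul, map_mul, map_pow, map_pow, hTc, hTc', mul_one, mul_one] at e3
    rcases le_total i j with hij | hij
    · exact hTinj i j hij h3
    · exact (hTinj j i hij h3.symm).symm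
  · refine ⟨1, fun i j p hp => ?_⟩
    exact absurd ⟨p, hp⟩ hne

/-- The value of the degree of twisted commutativity. -/
theorem tdc_eq (V : Subgroup G) [hVn : V.Normal] [hVf : V.FiniteIndex] [Fintype (G ⧸ V)]
    (hc : ∀ a ∈ V, ∀ b ∈ V, a * b = b * a)
    (ht : ∀ a ∈ V, ∀ r : ℕ, 0 < r → a ^ r = 1 → a = 1) (φ : G →* G) (hφ : ∀ a ∈ V, φ a ∈ V)
    (X : Finset G) (hX : Subgroup.closure (X : Set G) = ⊤) [DecidablePred (Full V φ)] :
    tdc φ X = ∑ q : (G ⧸ V) × (G ⧸ V),
      if Full V φ q then (1 / (Fintype.card (G ⧸ V) : ℝ)) * (1 / (Fintype.card (G ⧸ V) : ℝ)) else 0 := by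
  classical
  obtain ⟨D, r0, hD⟩ := doubling V hc X hX
  have hr := ratio_tendsto X D r0 hD
  have hr' := ratio_tendsto' X D r0 hD
  have hpart : ∀ q : (G ⧸ V) × (G ⧸ V),
      Tendsto (fun n : ℕ => ((sqb X (EE V φ q) n).ncard : ℝ) / (β X n : ℝ) ^ 2) atTop
        (𝓝 (if Full V φ q then (1 / (Fintype.card (G ⧸ V) : ℝ)) *
          (1 / (Fintype.card (G ⧸ V) : ℝ)) else 0)) := by
    intro q
    split_ifs with hq
    · have h1 := (coset_density X hX hr hr' V q.1).mul (coset_density X hX hr hr' V q.2)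
      refine h1.congr fun n => ?_
      have h2 : sqb X (EE V φ q) n = (cb X V q.1 n) ×ˢ (cb X V q.2 n) := by
        ext ⟨x, y⟩
        simp only [sqb, EE, cb, Set.mem_ofPred_eq, Set.mem_prod]
        constructor
        · rintro ⟨⟨h1, h2, -⟩, h4, h5⟩
          exact ⟨⟨h4, h1⟩, ⟨h5, h2⟩⟩
        · rintro ⟨⟨h4, h1⟩, ⟨h5, h2⟩⟩
          exact ⟨⟨h1, h2, hq x y h1 h2⟩, h4, h5⟩
      rw [h2, Set.ncard_prod, div_mul_div_comm]
      push_cast
      rw [pow_two]
    · obtain ⟨u, hu⟩ := not_full V hc ht φ hφ q hq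
      exact negligible X hX hr' _ u hu
  have hsum := tendsto_finsetSum (Finset.univ : Finset ((G ⧸ V) × (G ⧸ V)))
    (fun q _ => hpart q)
  unfold tdc
  apply Tendsto.limsup_eq
  refine hsum.congr fun n => ?_
  rw [← Finset.sum_div]
  have hcount : (({p : G × G | p.1 ∈ ball X n ∧ p.2 ∈ ball X n ∧
      p.1 * p.2 = p.2 * φ p.1}).ncard) = ∑ q, (sqb X (EE V φ q) n).ncard := by
    have hfin : ({p : G × G | p.1 ∈ ball X n ∧ p.2 ∈ ball X n ∧
      p.1 * p.2 = p.2 * φ p.1}).Finite :=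
      ((ball_finite X n).prod (ball_finite X n)).subset fun _ h => ⟨h.1, h.2.1⟩
    rw [Set.ncard_eq_toFinset_card _ hfin]
    rw [Finset.card_eq_sum_card_fiberwise (f := fun p : G × G =>
      ((QuotientGroup.mk p.1 : G ⧸ V), (QuotientGroup.mk p.2 : G ⧸ V))) (t := Finset.univ)
      (fun x _ => Finset.mem_univ _)]
    refine Finset.sum_congr rfl fun q _ => ?_
    rw [← Set.ncard_coe_finset]
    congr 1
    ext p
    simp only [Finset.coe_filter, Set.Finite.mem_toFinset, Set.mem_ofPred_eq, sqb, EE]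
    constructor
    · rintro ⟨⟨h1, h2, h3⟩, h4⟩
      rw [← h4]
      exact ⟨⟨rfl, rfl, h3⟩, h1, h2⟩
    · rintro ⟨⟨h1, h2, h3⟩, h4, h5⟩
      exact ⟨⟨h4, h5, h3⟩, Prod.ext h1 h2⟩
  rw [hcount]
  push_cast
  rfl

end Main

/-- For a finitely generated virtually abelian group and any endomorphism, the degree of twisted
commutativity does not depend on the generating set. -/
theorem result (G : Type u) [Group G] (A : Subgroup G) (hA : A.FiniteIndex)
    (hcomm : ∀ a ∈ A, ∀ b ∈ A, a * b = b * a) (φ : G →* G) (X Y : Finset G)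
    (hX : Subgroup.closure (X : Set G) = ⊤) (hY : Subgroup.closure (Y : Set G) = ⊤) :
    tdc φ X = tdc φ Y := by
  classical
  have hG : Group.FG G := ⟨⟨X, hX⟩⟩
  obtain ⟨V, hVf, hc, ht, hinv⟩ := exists_good A hcomm
  have hVn := normal_of_invariant V hinv
  have := Fintype.ofFinite (G ⧸ V)
  rw [tdc_eq V hc ht φ (hinv φ) X hX, tdc_eq V hc ht φ (hinv φ) Y hY]

end Pool.Agent.Results.MP_d54b08_al.TdcIndependent
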